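import Pool.Agent.LibRC21.Defs

/-! [RC21 R4] The statement taken from ST91 (the bound for the points, with the discriminant of the field). -/

set_option autoImplicit false

open NumberField Polynomial

namespace Pool.Agent.LibRC21

/-- `log |x|` is at most `C1 √|discr K| (1 + log |108 k|)` times a power of a logarithm. -/
def Core : Prop := ∃ C0 C1 : ℝ, 1 ≤ C0 ∧ 0 < C1 ∧ ∃ κ : ℕ, ∀ x y : ℤ, y ^ 2 - x ^ 3 ≠ 0 →
  C0 * |((y ^ 2 - x ^ 3 : ℤ) : ℝ)| ^ 3 ≤ |(x : ℝ)| →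
  ∃ (K : Type) (_ : Field K) (_ : NumberField K) (ω : K), Module.finrank ℚ K = 3 ∧
    Irreducible ((X ^ 3 - C (3 * x) * X + C (2 * y) : ℤ[X]).map (Int.castRingHom ℚ)) ∧
    ω ^ 3 - 3 * x * ω + 2 * y = 0 ∧
    Real.log |(x : ℝ)| ≤ C1 * (√|(discr K : ℝ)| * (1 + Real.log (108 * |((y ^ 2 - x ^ 3 : ℤ) : ℝ)|)) *
      Real.log (3 * |(discr K : ℝ)| * (1 + Real.log (108 * |((y ^ 2 - x ^ 3 : ℤ) : ℝ)|)) *
        (3 + Real.log |(x : ℝ)|)) ^ κ)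

end Pool.Agent.LibRC21
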