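import Pool.Agent.LibST91T.TX4
import Pool.Agent.LibRC21.R4

/-! [RC21 R4c] `Core` from `MainX 3 1` (the proof of `mordell` of ST91, without the last step). -/

set_option autoImplicit false

open NumberField Polynomial

namespace Pool.Agent.LibRC21

open Pool.Agent.LibST91

private theorem field_eta_root (n : ℕ) (f : ℤ[X]) (hf : f.Monic) (hn : f.natDegree = n)
    (t : Fin n → ℂ) (ht : Function.Injective t) (hft : ∀ i, aeval (t i) f = 0) (i₀ : Fin n)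
    (hs : ∀ i, i ≠ i₀ → ‖aeval (t i) (derivative f)‖ < 1) :
    ∃ (K : Type) (_ : Field K) (_ : NumberField K) (θ : 𝓞 K) (η : 𝓞 K),
      Irreducible (f.map (algebraMap ℤ ℚ)) ∧ aeval θ f = 0 ∧
      Module.finrank ℚ K = n ∧ η ≠ 0 ∧
      ((Algebra.norm ℤ η : ℤ) : ℂ) = ∏ i, aeval (t i) (derivative f) ∧
      (∀ i, ∃ σ : K →+* ℂ, σ (η : K) = aeval (t i) (derivative f)) ∧
      (∀ φ : K →+* ℂ, ∃ i, φ (η : K) = aeval (t i) (derivative f)) := by
  have hirr := irr_of_small n f hf hn t ht hft i₀ hs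
  obtain ⟨K, iK, iN, θ, h1, h2, h3, h4⟩ := field_setup f hf hirr
  have h7 : aeval θ f = 0 := by
    have h := minpoly.aeval ℤ θ
    rwa [h2] at h
  have hne : (aeval θ (derivative f) : 𝓞 K) ≠ 0 := by
    intro h5
    obtain ⟨σ, hσ⟩ := h4 (t i₀) (hft i₀)
    have h6 := emb_aeval K θ σ (derivative f)
    rw [h5, hσ] at h6
    exact aeval_deriv_ne n f hf hn t ht hft i₀ (by rw [← h6]; simp)
  refine ⟨K, iK, iN, θ, aeval θ (derivative f), hirr, h7, h1.trans hn, hne, ?_, ?_, ?_⟩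
  · exact norm_prod f n hn t ht hft K θ h1 h4 _
  · intro i
    obtain ⟨σ, hσ⟩ := h4 (t i) (hft i)
    refine ⟨σ, ?_⟩
    rw [emb_aeval, hσ]
  · intro φ
    have h6 := emb_aeval K θ φ f
    rw [h7] at h6
    have h8 : aeval (φ (θ : K)) f = 0 := by rw [← h6]; simp
    obtain ⟨i, hi⟩ := root_mem n f hf hn t ht hft _ h8
    refine ⟨i, ?_⟩
    rw [emb_aeval, hi]

theorem core_of (hX : MainX 3 1) : Core := by
  obtain ⟨C, hC, κ, hX⟩ := hX
  refine ⟨217, 1 + 4 * C * 2 ^ κ, by norm_num, by positivity, κ, fun x y hk0 hbig => ?_⟩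
  set k : ℤ := y ^ 2 - x ^ 3 with hk
  set n : ℝ := |(k : ℝ)| with hn
  have hn1 : 1 ≤ n := by
    rw [hn, ← Int.cast_abs]
    exact_mod_cast Int.one_le_abs hk0
  have hn3 : n ≤ n ^ 3 := by
    calc n = n ^ 1 := (pow_one n).symm
      _ ≤ n ^ 3 := pow_le_pow_right₀ hn1 (by norm_num)
  have hxn : 217 * n ≤ |(x : ℝ)| := by linarith
  obtain ⟨t, hroot, hprod, hmono⟩ := exists_roots_sorted 3 (cub x y) (cub_monic x y)
    (cub_natDegree x y) (fun z => ‖aeval z (derivative (cub x y))‖)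
  obtain ⟨e1, e2, e3⟩ := cub_facts x y t hprod
  have hkc : (k : ℂ) = (y : ℂ) ^ 2 - (x : ℂ) ^ 3 := by rw [hk]; push_cast; ring
  set a : Fin 3 → ℂ := fun i => aeval (t i) (derivative (cub x y)) with ha
  have ha' : ∀ i, a i = 3 * t i ^ 2 - 3 * x := fun i => cub_deriv x y (t i)
  have ht2 : t 2 = -t 0 - t 1 := by linear_combination e1
  have hP : a 0 * a 1 * a 2 = 108 * k := by
    rw [ha', ha', ha', hkc]
    have hx : (x : ℂ) = -(t 0 * t 1 + t 0 * t 2 + t 1 * t 2) / 3 := by linear_combination (1 / 3 : ℂ) * e2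
    have hy : (y : ℂ) = -(t 0 * t 1 * t 2) / 2 := by linear_combination (1 / 2 : ℂ) * e3
    rw [hx, hy, ht2]
    ring
  have hS : a 1 * a 2 + a 0 * a 2 + a 0 * a 1 = 0 := by
    rw [ha', ha', ha']
    have hx : (x : ℂ) = -(t 0 * t 1 + t 0 * t 2 + t 1 * t 2) / 3 := by linear_combination (1 / 3 : ℂ) * e2
    rw [hx, ht2]
    ring
  have h9 : 9 * (x : ℂ) = -(a 0 + a 1 + a 2) * (-1) := by
    rw [ha', ha', ha']
    have hx : (x : ℂ) = -(t 0 * t 1 + t 0 * t 2 + t 1 * t 2) / 3 := by linear_combination (1 / 3 : ℂ) * e2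
    rw [hx, ht2]
    ring
  have hkc0 : (k : ℂ) ≠ 0 := by exact_mod_cast hk0
  have hP0 : a 0 * a 1 * a 2 ≠ 0 := by rw [hP]; exact mul_ne_zero (by norm_num) hkc0
  have a0 : a 0 ≠ 0 := fun h => hP0 (by rw [h]; ring)
  have a1 : a 1 ≠ 0 := fun h => hP0 (by rw [h]; ring)
  have a2 : a 2 ≠ 0 := fun h => hP0 (by rw [h]; ring)
  have d0 : a 0 = (t 0 - t 1) * (t 0 - t 2) := by rw [ha']; linear_combination -e2 + 2 * t 0 * e1
  have d1 : a 1 = (t 1 - t 0) * (t 1 - t 2) := by rw [ha']; linear_combination -e2 + 2 * t 1 * e1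
  have t01 : t 0 ≠ t 1 := fun h => a0 (by rw [d0, h]; ring)
  have t02 : t 0 ≠ t 2 := fun h => a0 (by rw [d0, h]; ring)
  have t12 : t 1 ≠ t 2 := fun h => a1 (by rw [d1, h]; ring)
  have hinj : Function.Injective t := inj_fin3 t t01 t02 t12
  have m01 : ‖a 0‖ ≤ ‖a 1‖ := hmono (show (0 : Fin 3) ≤ 1 by decide)
  have m12 : ‖a 1‖ ≤ ‖a 2‖ := hmono (show (1 : Fin 3) ≤ 2 by decide)
  have p0 : 0 < ‖a 0‖ := norm_pos_iff.2 a0
  have p1 : 0 < ‖a 1‖ := norm_pos_iff.2 a1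
  have p2 : 0 < ‖a 2‖ := norm_pos_iff.2 a2
  have hN : ‖a 0‖ * ‖a 1‖ * ‖a 2‖ = 108 * n := by
    rw [← norm_mul, ← norm_mul, hP, norm_mul, Complex.norm_intCast, hn]
    norm_num
  have h9' : 9 * (x : ℂ) = a 0 + a 1 + a 2 := by rw [h9]; ring
  have hx2 : |(x : ℝ)| ≤ ‖a 2‖ := by
    have h1 : ‖(9 : ℂ) * x‖ ≤ ‖a 0‖ + ‖a 1‖ + ‖a 2‖ := by
      rw [h9']
      exact norm_add₃_le
    rw [norm_mul, Complex.norm_intCast] at h1
    norm_num at h1
    nlinarith [abs_nonneg (x : ℝ)]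
  have hb : ‖a 1‖ < 1 := by
    by_contra hb
    push Not at hb
    have h1 : ‖a 1‖ ≤ 2 * ‖a 0‖ := by
      have h2 : a 1 * a 2 = -(a 0 * (a 2 + a 1)) := by linear_combination hS
      have h3 : ‖a 1‖ * ‖a 2‖ ≤ ‖a 0‖ * (‖a 2‖ + ‖a 1‖) := by
        rw [← norm_mul, h2, norm_neg, norm_mul]
        gcongr
        exact norm_add_le _ _
      have h4 : ‖a 1‖ * ‖a 2‖ ≤ 2 * ‖a 0‖ * ‖a 2‖ := by nlinarith
      exact le_of_mul_le_mul_right h4 p2
    have h2 : ‖a 2‖ ≤ 216 * n := by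
      have h3 : 1 / 2 ≤ ‖a 0‖ * ‖a 1‖ := by nlinarith
      nlinarith
    linarith
  have hx11 : ‖a 2‖ ≤ 11 * |(x : ℝ)| := by
    have h1 : a 2 = 9 * (x : ℂ) - a 0 - a 1 := by linear_combination -h9'
    have h2 : ‖a 2‖ ≤ 9 * |(x : ℝ)| + ‖a 0‖ + ‖a 1‖ := by
      calc ‖a 2‖ = ‖9 * (x : ℂ) - a 0 - a 1‖ := by rw [← h1]
        _ ≤ ‖9 * (x : ℂ) - a 0‖ + ‖a 1‖ := norm_sub_le _ _
        _ ≤ ‖9 * (x : ℂ)‖ + ‖a 0‖ + ‖a 1‖ := by gcongr; exact norm_sub_le _ _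
        _ = 9 * |(x : ℝ)| + ‖a 0‖ + ‖a 1‖ := by
          rw [norm_mul, Complex.norm_intCast]; norm_num
    linarith
  have hsm : ∀ i, i ≠ 2 → ‖aeval (t i) (derivative (cub x y))‖ < 1 := by
    intro i hi
    fin_cases i
    · exact lt_of_le_of_lt m01 hb
    · exact hb
    · exact absurd rfl hi
  obtain ⟨K, iK, iN, θ, η, hirr, hθ, hfin, hη, hnorm, hemb, hall⟩ := field_eta_root 3 (cub x y)
    (cub_monic x y) (cub_natDegree x y) t hinj hroot 2 hsm
  refine ⟨K, iK, iN, (θ : K), hfin, ?_, ?_, ?_⟩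
  · exact hirr
  · have h1 := congrArg (fun z : 𝓞 K => (z : K)) hθ
    have q3 : aeval θ (3 : ℤ[X]) = 3 := map_ofNat _ 3
    have q2 : aeval θ (2 : ℤ[X]) = 2 := map_ofNat _ 2
    have q3' : algebraMap (𝓞 K) K 3 = 3 := map_ofNat _ 3
    have q2' : algebraMap (𝓞 K) K 2 = 2 := map_ofNat _ 2
    simpa [cub, q3, q2, q3', q2'] using h1
  obtain ⟨σ, hσ⟩ := hemb 0
  obtain ⟨τ, hτ⟩ := hemb 1
  have hσ' : σ (η : K) = a 0 := hσ
  have hτ' : τ (η : K) = a 1 := hτ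
  have hNn : |((Algebra.norm ℤ η : ℤ) : ℝ)| = 108 * n := by
    have h1 : ((Algebra.norm ℤ η : ℤ) : ℂ) = 108 * k := by
      rw [hnorm, Fin.prod_univ_three]
      exact hP
    have h2 := congrArg norm h1
    rw [Complex.norm_intCast, norm_mul, Complex.norm_intCast] at h2
    rw [h2, hn]
    norm_num
  have hlog3 : Real.log ‖a 0‖ + Real.log ‖a 1‖ + Real.log ‖a 2‖ = Real.log (108 * n) := by
    rw [← Real.log_mul p0.ne' p1.ne', ← Real.log_mul (mul_pos p0 p1).ne' p2.ne', hN]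
  set T : ℝ := ‖a 2‖ with hT
  have hT1 : 108 * n ≤ T := by
    rw [← hN]
    have h1 : ‖a 0‖ * ‖a 1‖ ≤ 1 := by nlinarith
    nlinarith
  set Y : ℝ := Real.log T with hYd
  have hY1 : 1 ≤ Y := Pool.Agent.LibST91.one_le_log (by linarith)
  have l0 : Real.log ‖a 0‖ ≤ Real.log ‖a 1‖ := Real.log_le_log p0 m01
  have l1 : Real.log ‖a 1‖ ≤ 0 := Real.log_nonpos p1.le hb.le
  have l2 : 0 ≤ Real.log (108 * n) := Real.log_nonneg (by linarith)
  have hH : ∀ φ : K →+* ℂ, |Real.log ‖φ (η : K)‖| ≤ Y := by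
    intro φ
    obtain ⟨i, hi⟩ := hall φ
    have hi' : φ (η : K) = a i := hi
    rw [hi', abs_le]
    fin_cases i
    · exact ⟨by simp only [Fin.zero_eta]; linarith, by simp only [Fin.zero_eta]; linarith⟩
    · exact ⟨by simp only [Fin.mk_one]; linarith, by simp only [Fin.mk_one]; linarith⟩
    · exact ⟨by simp only [Fin.reduceFinMk]; linarith, by simp only [Fin.reduceFinMk]; linarith⟩
  have hz : (algebraMap ℚ ℂ) (-1) * σ (η : K) / τ (η : K) - 1 = a 0 / a 2 := by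
    rw [hσ', hτ', map_neg, map_one]
    field_simp
    linear_combination -hS
  have hz1 : (algebraMap ℚ ℂ) (-1) * σ (η : K) / τ (η : K) ≠ 1 := by
    intro h
    rw [h, sub_self] at hz
    exact (div_ne_zero a0 a2) hz.symm
  have hmain := hX K hfin.le ℚ (by simp) η hη σ τ (algebraMap ℚ ℂ) (-1) (Real.pi * Complex.I) 4
    adm_neg_one Y hY1 hH hz1
  rw [hz, norm_div, hNn] at hmain
  have h1 := Real.log_le_log (Real.exp_pos _) hmain
  rw [Real.log_exp, Real.log_div p0.ne' p2.ne'] at h1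
  have hd1 : 1 ≤ |(discr K : ℝ)| := by
    rw [← Int.cast_abs]
    exact_mod_cast Int.one_le_abs (discr_ne_zero K)
  -- the numbers
  set l : ℝ := 1 + Real.log (108 * n) with hl
  have hl1 : 1 ≤ l := by linarith
  set D : ℝ := |(discr K : ℝ)| with hD
  have hx0 : 1 ≤ |(x : ℝ)| := by linarith
  have hlx : 0 ≤ Real.log |(x : ℝ)| := Real.log_nonneg hx0
  have hlog11 : Real.log 11 ≤ 3 := by
    rw [Real.log_le_iff_le_exp (by norm_num)]
    have h1 := Real.exp_one_gt_d9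
    calc (11 : ℝ) ≤ (2.7 : ℝ) ^ 3 := by norm_num
      _ ≤ (Real.exp 1) ^ 3 := by gcongr; linarith
      _ = Real.exp 3 := by rw [← Real.exp_nat_mul]; norm_num
  have hYx : Y ≤ 3 + Real.log |(x : ℝ)| := by
    have h2 := Real.log_le_log p2 hx11
    rw [Real.log_mul (by norm_num) (by linarith)] at h2
    linarith
  set Z : ℝ := 3 * D * l * (3 + Real.log |(x : ℝ)|) with hZ
  have hZ9 : 9 ≤ Z := by
    have h2 : 3 ≤ 3 * D := by linarith
    have h3 : 3 ≤ 3 * D * l := by nlinarith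
    have h4 : 9 ≤ 3 * D * l * (3 + Real.log |(x : ℝ)|) := by nlinarith
    exact h4
  have hlZ : 1 ≤ Real.log Z := Pool.Agent.LibST91.one_le_log (by linarith)
  have h2 : Real.log (3 * D * l * 4 * Y) ≤ 2 * Real.log Z := by
    have h3 : 3 * D * l * 4 * Y ≤ Z ^ 2 := by
      have h4 : 3 * D * l * 4 * Y ≤ 4 * Z := by
        calc 3 * D * l * 4 * Y = 4 * (3 * D * l * Y) := by ring
          _ ≤ 4 * (3 * D * l * (3 + Real.log |(x : ℝ)|)) := by gcongr
          _ = 4 * Z := by rw [hZ]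
      nlinarith
    have h4 : 0 < 3 * D * l * 4 * Y := by positivity
    have h5 := Real.log_le_log h4 h3
    rw [Real.log_pow] at h5
    exact_mod_cast h5
  have h3 : 0 ≤ Real.log (3 * D * l * 4 * Y) := by
    apply Real.log_nonneg
    have h4 : 3 ≤ 3 * D := by linarith
    have h5 : 3 ≤ 3 * D * l := by nlinarith
    nlinarith
  have h4 : Real.log (3 * D * l * 4 * Y) ^ κ ≤ 2 ^ κ * Real.log Z ^ κ := by
    rw [← mul_pow]
    exact pow_le_pow_left₀ h3 h2 κ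
  have hsD : 1 ≤ √D := Real.one_le_sqrt.2 hd1
  have hlZk : 1 ≤ Real.log Z ^ κ := one_le_pow₀ hlZ
  have h5 : C * (√D * l * 4 * Real.log (3 * D * l * 4 * Y) ^ κ) ≤
      C * (√D * l * 4 * (2 ^ κ * Real.log Z ^ κ)) := by
    gcongr
  have h6 : l ≤ √D * l * Real.log Z ^ κ := by
    have h7 : l ≤ √D * l := by nlinarith
    have h8 : √D * l ≤ √D * l * Real.log Z ^ κ := le_mul_of_one_le_right (by positivity) hlZk
    linarith
  have h7 : Real.log |(x : ℝ)| ≤ Y := Real.log_le_log (by linarith) hx2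
  have h8 : 3 / 2 * Y ≤ 1 / 2 * Real.log (108 * n) +
      C * (√D * l * 4 * Real.log (3 * D * l * 4 * Y) ^ κ) := by
    linarith
  have h9 : (1 + 4 * C * 2 ^ κ) * (√D * l * Real.log Z ^ κ) =
      √D * l * Real.log Z ^ κ + C * (√D * l * 4 * (2 ^ κ * Real.log Z ^ κ)) := by ring
  rw [h9]
  linarith

theorem core : Core := core_of (main_X 3 1)

end Pool.Agent.LibRC21
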