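import Mathlib

/-!
[RC21 LI] From `X ≤ A (log (A X)) ^ κ` to `X ≤ C A (log A) ^ κ`.
-/

set_option autoImplicit false

namespace Pool.Agent.LibRC21

theorem one_le_log {A : ℝ} (hA : 3 ≤ A) : 1 ≤ Real.log A := by
  rw [Real.le_log_iff_exp_le (by linarith)]
  exact (Real.exp_one_lt_d9.le.trans (by norm_num)).trans hA

theorem log_iter (κ : ℕ) : ∃ C : ℝ, 1 ≤ C ∧ ∀ A X : ℝ, 3 ≤ A → 1 ≤ X →
    X ≤ A * Real.log (A * X) ^ κ → X ≤ C * (A * Real.log A ^ κ) := by
  rcases Nat.eq_zero_or_pos κ with h0 | h0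
  · refine ⟨1, le_refl _, fun A X _ _ h => ?_⟩
    subst h0
    simpa using h
  have hk : (1 : ℝ) ≤ κ := by exact_mod_cast h0
  set m : ℝ := 3 + 2 * κ * Real.log (2 * κ) with hm
  have hlk : 0 ≤ Real.log (2 * κ) := Real.log_nonneg (by linarith)
  have hm0 : 0 ≤ m := by positivity
  refine ⟨(1 + m) ^ κ, one_le_pow₀ (by linarith), fun A X hA hX h => ?_⟩
  have hlA := one_le_log hA
  have hlX : 0 ≤ Real.log X := Real.log_nonneg hX
  have hAp : 0 < A := by linarith
  have hXp : 0 < X := by linarith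
  have hL : Real.log (A * X) = Real.log A + Real.log X := Real.log_mul hAp.ne' hXp.ne'
  rw [hL] at h
  set L : ℝ := Real.log A + Real.log X with hLd
  have hLp : 0 < L := by linarith
  have h1 : Real.log X ≤ Real.log A + κ * Real.log L := by
    have h2 := Real.log_le_log hXp h
    rwa [Real.log_mul hAp.ne' (pow_pos hLp _).ne', Real.log_pow] at h2
  have h2 : κ * Real.log L ≤ L / 2 + κ * Real.log (2 * κ) := by
    have h3 := Real.log_le_sub_one_of_pos (x := L / (2 * κ)) (by positivity)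
    rw [Real.log_div hLp.ne' (by positivity)] at h3
    have h4 : κ * Real.log L ≤ κ * (L / (2 * κ)) - κ + κ * Real.log (2 * κ) := by nlinarith
    have h5 : κ * (L / (2 * κ)) = L / 2 := by field_simp
    linarith
  have h3 : Real.log X ≤ m * Real.log A := by
    have h4 : κ * Real.log (2 * κ) ≤ κ * Real.log (2 * κ) * Real.log A :=
      le_mul_of_one_le_right (by positivity) hlA
    rw [hm]
    nlinarith
  have h4 : L ≤ (1 + m) * Real.log A := by rw [hLd]; linarith
  calc X ≤ A * L ^ κ := h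
    _ ≤ A * ((1 + m) * Real.log A) ^ κ := by gcongr
    _ = (1 + m) ^ κ * (A * Real.log A ^ κ) := by rw [mul_pow]; ring

end Pool.Agent.LibRC21
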