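import Pool.Agent.LibRC21.Defs

/-! [RC21 R2] The transformation `F(M X + r Y, Y) / M^2` of `F = X^3 - 3 x X Y^2 + 2 y Y^3`. -/

set_option autoImplicit false

namespace Pool.Agent.LibRC21

private theorem r2_crt (x y N1 N2 : ℤ) (hc : IsCoprime N1 N2) (r1 r2 : ℤ)
    (h1 : N1 ^ 2 ∣ r1 ^ 3 - 3 * x * r1 + 2 * y) (h1' : N1 ∣ 3 * (r1 ^ 2 - x))
    (h2 : N2 ^ 2 ∣ r2 ^ 3 - 3 * x * r2 + 2 * y) (h2' : N2 ∣ 3 * (r2 ^ 2 - x)) :
    ∃ r : ℤ, (N1 * N2) ^ 2 ∣ r ^ 3 - 3 * x * r + 2 * y ∧ N1 * N2 ∣ 3 * (r ^ 2 - x) := by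
  obtain ⟨u, v, huv⟩ := (hc.pow (m := 2) (n := 2))
  have e1 : (r1 * (v * N2 ^ 2) + r2 * (u * N1 ^ 2)) = r1 + N1 ^ 2 * (u * (r2 - r1)) := by
    linear_combination r1 * huv
  have e2 : (r1 * (v * N2 ^ 2) + r2 * (u * N1 ^ 2)) = r2 + N2 ^ 2 * (v * (r1 - r2)) := by
    linear_combination r2 * huv
  refine ⟨r1 * (v * N2 ^ 2) + r2 * (u * N1 ^ 2), ?_, ?_⟩
  · rw [mul_pow]
    refine (hc.pow (m := 2) (n := 2)).mul_dvd ?_ ?_
    · rw [e1]
      obtain ⟨w, hw⟩ := h1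
      refine ⟨w + (u * (r2 - r1)) * ((r1 + N1 ^ 2 * (u * (r2 - r1))) ^ 2 +
        (r1 + N1 ^ 2 * (u * (r2 - r1))) * r1 + r1 ^ 2 - 3 * x), ?_⟩
      linear_combination hw
    · rw [e2]
      obtain ⟨w, hw⟩ := h2
      refine ⟨w + (v * (r1 - r2)) * ((r2 + N2 ^ 2 * (v * (r1 - r2))) ^ 2 +
        (r2 + N2 ^ 2 * (v * (r1 - r2))) * r2 + r2 ^ 2 - 3 * x), ?_⟩
      linear_combination hw
  · refine hc.mul_dvd ?_ ?_
    · rw [e1]
      obtain ⟨w, hw⟩ := h1'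
      refine ⟨w + 3 * (N1 * (u * (r2 - r1))) * (2 * r1 + N1 ^ 2 * (u * (r2 - r1))), ?_⟩
      linear_combination hw
    · rw [e2]
      obtain ⟨w, hw⟩ := h2'
      refine ⟨w + 3 * (N2 * (v * (r1 - r2))) * (2 * r2 + N2 ^ 2 * (v * (r1 - r2))), ?_⟩
      linear_combination hw

private theorem r2_glue (x y : ℤ) (s : Finset ℕ) (hs : ∀ p ∈ s, p.Prime) (m : ℕ → ℕ)
    (h : ∀ p ∈ s, ∃ r : ℤ, ((p : ℤ) ^ m p) ^ 2 ∣ r ^ 3 - 3 * x * r + 2 * y ∧
      (p : ℤ) ^ m p ∣ 3 * (r ^ 2 - x)) :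
    ∃ r : ℤ, (((∏ p ∈ s, p ^ m p : ℕ) : ℤ)) ^ 2 ∣ r ^ 3 - 3 * x * r + 2 * y ∧
      ((∏ p ∈ s, p ^ m p : ℕ) : ℤ) ∣ 3 * (r ^ 2 - x) := by
  classical
  induction s using Finset.induction_on with
  | empty => exact ⟨0, by simp, by simp⟩
  | insert q s hq ih =>
    obtain ⟨r2, h2, h2'⟩ := ih (fun p hp => hs p (Finset.mem_insert_of_mem hp))
      (fun p hp => h p (Finset.mem_insert_of_mem hp))
    obtain ⟨r1, h1, h1'⟩ := h q (Finset.mem_insert_self q s)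
    rw [Finset.prod_insert hq]
    push_cast at h2 h2' ⊢
    refine r2_crt x y _ _ ?_ r1 r2 h1 h1' h2 h2'
    refine IsCoprime.prod_right fun p hp => ?_
    have hqp : q ≠ p := fun h => hq (h ▸ hp)
    have h3 : Nat.Coprime q p := (Nat.coprime_primes (hs q (Finset.mem_insert_self q s))
      (hs p (Finset.mem_insert_of_mem hp))).2 hqp
    exact (Nat.isCoprime_iff_coprime.2 h3).pow

private theorem r2_local1 (x y q : ℤ) (hq : q ∣ y ^ 2 - x ^ 3) (hc : IsCoprime q x) :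
    ∃ r : ℤ, q ∣ r ^ 3 - 3 * x * r + 2 * y ∧ q ∣ 3 * (r ^ 2 - x) := by
  obtain ⟨a, b, hab⟩ := hc
  obtain ⟨w, hw⟩ := hq
  have hxr : x * (b * y) = y - q * (a * y) := by linear_combination y * hab
  refine ⟨b * y, ?_, ?_⟩
  · have h1 : q ∣ x ^ 3 * ((b * y) ^ 3 - 3 * x * (b * y) + 2 * y) := by
      have h2 : x ^ 3 * ((b * y) ^ 3 - 3 * x * (b * y) + 2 * y) =
          (x * (b * y)) ^ 3 - 3 * x ^ 3 * (x * (b * y)) + 2 * x ^ 3 * y := by ring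
      rw [h2, hxr]
      refine ⟨y * w - (a * y) * ((y - q * (a * y)) ^ 2 + (y - q * (a * y)) * y + y ^ 2 - 3 * x ^ 3), ?_⟩
      linear_combination y * hw
    exact (IsCoprime.pow_right ⟨a, b, hab⟩ : IsCoprime q (x ^ 3)).dvd_of_dvd_mul_left h1
  · have h1 : q ∣ x ^ 2 * (3 * ((b * y) ^ 2 - x)) := by
      have h2 : x ^ 2 * (3 * ((b * y) ^ 2 - x)) = 3 * ((x * (b * y)) ^ 2 - x ^ 3) := by ring
      rw [h2, hxr]
      refine ⟨3 * w + 3 * (-(a * y) * (2 * y - q * (a * y))), ?_⟩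
      linear_combination 3 * hw
    exact (IsCoprime.pow_right ⟨a, b, hab⟩ : IsCoprime q (x ^ 2)).dvd_of_dvd_mul_left h1

private theorem r2_y (x y p : ℤ) (hp : Prime p) (hx : p ∣ x) (hk : p ^ 3 ∣ y ^ 2 - x ^ 3) : p ^ 2 ∣ y := by
  obtain ⟨a, rfl⟩ := hx
  obtain ⟨w, hw⟩ := hk
  have hy2 : p ^ 3 ∣ y ^ 2 := ⟨w + a ^ 3, by linear_combination hw⟩
  have hy : p ∣ y := hp.dvd_of_dvd_pow ((dvd_pow_self p (by norm_num)).trans hy2)
  obtain ⟨z, rfl⟩ := hy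
  have h1 : p ∣ z ^ 2 := by
    obtain ⟨v, hv⟩ := hy2
    refine ⟨v, ?_⟩
    have h2 : p ^ 2 * (z ^ 2) = p ^ 2 * (p * v) := by linear_combination hv
    exact mul_left_cancel₀ (pow_ne_zero 2 hp.ne_zero) h2
  obtain ⟨u, rfl⟩ := hp.dvd_of_dvd_pow h1
  exact ⟨u, by ring⟩

private theorem r2_min (x y p : ℤ) (hp : Prime p) (hx : p ∣ x) (hk : p ^ 5 ∣ y ^ 2 - x ^ 3) :
    p ^ 2 ∣ x ∧ p ^ 3 ∣ y := by
  have hy := r2_y x y p hp hx ((pow_dvd_pow p (by norm_num)).trans hk)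
  obtain ⟨w, rfl⟩ := hx
  obtain ⟨z, rfl⟩ := hy
  obtain ⟨u, hu⟩ := hk
  have hp0 := hp.ne_zero
  have h1 : p ∣ w ^ 3 := by
    refine ⟨z ^ 2 - p * u, ?_⟩
    have h2 : p ^ 3 * (w ^ 3) = p ^ 3 * (p * (z ^ 2 - p * u)) := by linear_combination -hu
    exact mul_left_cancel₀ (pow_ne_zero 3 hp0) h2
  obtain ⟨w', rfl⟩ := hp.dvd_of_dvd_pow h1
  have h3 : p ∣ z ^ 2 := by
    refine ⟨u + p * w' ^ 3, ?_⟩
    have h2 : p ^ 4 * (z ^ 2) = p ^ 4 * (p * (u + p * w' ^ 3)) := by linear_combination hu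
    exact mul_left_cancel₀ (pow_ne_zero 4 hp0) h2
  obtain ⟨z', rfl⟩ := hp.dvd_of_dvd_pow h3
  exact ⟨⟨w', by ring⟩, ⟨z', by ring⟩⟩

theorem transf (x y : ℤ) (h : y ^ 2 - x ^ 3 ≠ 0) (hmin : Minl x y) : ∃ (M : ℕ) (r c d : ℤ), 0 < M ∧
    Tr x y M r c d ∧ (y ^ 2 - x ^ 3).natAbs ≤ rcD x (y ^ 2 - x ^ 3) * M ^ 2 := by
  classical
  set k : ℤ := y ^ 2 - x ^ 3 with hk
  set n : ℕ := k.natAbs with hn
  have hn0 : n ≠ 0 := Int.natAbs_ne_zero.2 h
  set m : ℕ → ℕ := fun p => if (p : ℤ) ∣ x then (if 3 ≤ n.factorization p then 1 else 0)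
    else n.factorization p / 2 with hm
  have hpk : ∀ p : ℕ, ∀ j : ℕ, j ≤ n.factorization p → ((p : ℤ) ^ j) ∣ k := by
    intro p j hj
    have h1 : p ^ j ∣ n := (pow_dvd_pow p hj).trans (Nat.ordProj_dvd n p)
    have h2 := Int.natCast_dvd.2 (show p ^ j ∣ k.natAbs from h1)
    exact_mod_cast h2
  have hloc : ∀ p ∈ n.primeFactors, ∃ r : ℤ, ((p : ℤ) ^ m p) ^ 2 ∣ r ^ 3 - 3 * x * r + 2 * y ∧
      (p : ℤ) ^ m p ∣ 3 * (r ^ 2 - x) := by
    intro p hp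
    have hpp : p.Prime := Nat.prime_of_mem_primeFactors hp
    have hpZ : Prime (p : ℤ) := Nat.prime_iff_prime_int.1 hpp
    by_cases hx : (p : ℤ) ∣ x
    · by_cases h3 : 3 ≤ n.factorization p
      · have hy := r2_y x y p hpZ hx (hpk p 3 h3)
        refine ⟨0, ?_, ?_⟩
        · have hmp : m p = 1 := by simp only [hm]; rw [if_pos hx, if_pos h3]
          rw [hmp, pow_one]
          obtain ⟨z, hz⟩ := hy
          exact ⟨2 * z, by rw [hz]; ring⟩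
        · have hmp : m p = 1 := by simp only [hm]; rw [if_pos hx, if_pos h3]
          rw [hmp, pow_one]
          obtain ⟨z, hz⟩ := hx
          exact ⟨-3 * z, by rw [hz]; ring⟩
      · have hmp : m p = 0 := by simp only [hm]; rw [if_pos hx, if_neg h3]
        rw [hmp]
        exact ⟨0, by simp, by simp⟩
    · have hmp : m p = n.factorization p / 2 := by simp only [hm]; rw [if_neg hx]
      rw [hmp, ← pow_mul]
      have hq := hpk p (n.factorization p / 2 * 2) (by omega)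
      have hc : IsCoprime ((p : ℤ) ^ (n.factorization p / 2 * 2)) x :=
        IsCoprime.pow_left ((Prime.coprime_iff_not_dvd hpZ).2 hx)
      obtain ⟨r, h1, h2⟩ := r2_local1 x y _ hq hc
      exact ⟨r, h1, (pow_dvd_pow (p : ℤ) (by omega)).trans h2⟩
  obtain ⟨r, hr1, hr2⟩ := r2_glue x y n.primeFactors (fun p hp => Nat.prime_of_mem_primeFactors hp)
    m hloc
  set M : ℕ := ∏ p ∈ n.primeFactors, p ^ m p with hM
  obtain ⟨d, hd⟩ := hr1
  obtain ⟨c, hc⟩ := hr2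
  refine ⟨M, r, c, d, ?_, ⟨hc.symm, hd.symm⟩, ?_⟩
  · exact Finset.prod_pos fun p hp => pow_pos (Nat.prime_of_mem_primeFactors hp).pos _
  · have h1 : n = ∏ p ∈ n.primeFactors, p ^ n.factorization p := by
      conv_lhs => rw [← Nat.prod_factorization_pow_eq_self hn0]
      rfl
    have h2 : rcD x k * M ^ 2 = ∏ p ∈ n.primeFactors,
        p ^ ((if (p : ℤ) ∣ x then 2 else n.factorization p % 2) + m p * 2) := by
      rw [hM, ← Finset.prod_pow]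
      unfold rcD
      rw [← hn, ← Finset.prod_mul_distrib]
      refine Finset.prod_congr rfl fun p _ => ?_
      rw [← pow_mul, ← pow_add]
    rw [h2]
    conv_lhs => rw [h1]
    refine Finset.prod_le_prod' fun p hp => ?_
    have hpp : p.Prime := Nat.prime_of_mem_primeFactors hp
    refine Nat.pow_le_pow_right hpp.pos ?_
    by_cases hx : (p : ℤ) ∣ x
    · rw [if_pos hx]
      by_cases h3 : 3 ≤ n.factorization p
      · have hmp : m p = 1 := by simp only [hm]; rw [if_pos hx, if_pos h3]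
        rw [hmp]
        by_contra h5
        push Not at h5
        exact hmin p hpp (r2_min x y p (Nat.prime_iff_prime_int.1 hpp) hx (hpk p 5 (by omega)))
      · omega
    · have hmp : m p = n.factorization p / 2 := by simp only [hm]; rw [if_neg hx]
      rw [if_neg hx, hmp]
      omega

end Pool.Agent.LibRC21
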