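import Mathlib

/-! [RC21 R3b] The discriminant of a number field and a family of integers (SHORT/MEDIUM, ONLY MATHLIB;
template ST91_MO1.lean in the team-store, private theorem `MO1_core`).

PLAN. Copy the proof of `MO1_core` (team-store ST91_MO1.lean) with the family `b : Fin n → K` of integral elements in the place of
`ω ^ i` (`n = finrank ℚ K` from `e`); the embeddings matrix is `Algebra.embeddingsMatrixReindex`; its determinant is that of
`Matrix.of fun i j => e i (b j)` (or its transpose); the integer matrix of the coordinates of the `b j` has nonzero determinant by `hdet`. -/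

set_option autoImplicit false

open NumberField Polynomial

namespace Pool.Agent.LibRC21

theorem disc_basis (K : Type) [Field K] [NumberField K] (n : ℕ) (e : Fin n ≃ (K →+* ℂ)) (b : Fin n → K)
    (hb : ∀ i, IsIntegral ℤ (b i)) (hdet : (Matrix.of fun i j => e i (b j)).det ≠ 0) :
    |(discr K : ℝ)| ≤ ‖(Matrix.of fun i j => e i (b j)).det‖ ^ 2 := by
  classical
  set e' : Fin n ≃ (K →ₐ[ℚ] ℂ) := e.trans (RingHom.equivRatAlgHom K ℂ) with he'
  have hn : n = Module.finrank ℚ K := by
    rw [← NumberField.Embeddings.card K ℂ, ← Fintype.card_fin n]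
    exact Fintype.card_congr e
  have hcard : Fintype.card (Module.Free.ChooseBasisIndex ℤ (𝓞 K)) = n := by
    rw [← Module.finrank_eq_card_chooseBasisIndex, RingOfIntegers.rank, hn]
  let g : Module.Free.ChooseBasisIndex ℤ (𝓞 K) ≃ Fin n := Fintype.equivFinOfCardEq hcard
  let B : Module.Basis (Fin n) ℚ K := (integralBasis K).reindex g
  let o : Fin n → 𝓞 K := fun i => ⟨b i, hb i⟩
  let P' : Matrix (Fin n) (Fin n) ℤ :=
    Matrix.of fun i j => (RingOfIntegers.basis K).repr (o i) (g.symm j)
  have hB : Algebra.discr ℚ B = (discr K : ℚ) := by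
    rw [coe_discr]
    have : (B : Fin n → K) = (integralBasis K) ∘ g.symm := Module.Basis.coe_reindex _ _
    rw [this]
    exact Algebra.discr_reindex ℚ (integralBasis K) g
  have hvec : Matrix.mulVec ((P'.map (algebraMap ℤ ℚ)).map (algebraMap ℚ K)) B = b := by
    funext i
    have h1 : ∀ j, (P'.map (algebraMap ℤ ℚ)) i j = B.repr (b i) j := by
      intro j
      have h2 : b i = algebraMap (𝓞 K) K (o i) := rfl
      rw [h2, Module.Basis.repr_reindex_apply, integralBasis_repr_apply]
      rfl
    rw [Matrix.mulVec, dotProduct]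
    calc ∑ j, ((P'.map (algebraMap ℤ ℚ)).map (algebraMap ℚ K)) i j * B j
        = ∑ j, B.repr (b i) j • B j := by
          apply Finset.sum_congr rfl
          intro j _
          rw [Matrix.map_apply, h1, Algebra.smul_def]
      _ = b i := B.sum_repr _
  have hdisc : Algebra.discr ℚ b =
      ((P'.map (algebraMap ℤ ℚ)).det) ^ 2 * (discr K : ℚ) := by
    rw [← hvec, Algebra.discr_of_matrix_mulVec, hB]
  have hdet' : (P'.map (algebraMap ℤ ℚ)).det = (P'.det : ℚ) :=
    (RingHom.map_det (algebraMap ℤ ℚ) P').symm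
  have hemb : algebraMap ℚ ℂ (Algebra.discr ℚ b) =
      ((Matrix.of fun i j => e i (b j)).det) ^ 2 := by
    rw [Algebra.discr_eq_det_embeddingsMatrixReindex_pow_two ℚ ℂ _ e']
    have : Algebra.embeddingsMatrixReindex ℚ ℂ b e' =
        (Matrix.of fun i j => e i (b j)).transpose := by
      ext i j
      simp [Algebra.embeddingsMatrixReindex, Algebra.embeddingsMatrix, he']
    rw [this, Matrix.det_transpose]
  have hP : P'.det ≠ 0 := by
    intro h0
    apply hdet
    rw [← pow_eq_zero_iff two_ne_zero, ← hemb, hdisc, hdet', h0]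
    simp
  have hfin : ‖(Matrix.of fun i j => e i (b j)).det‖ ^ 2 =
      |(P'.det : ℝ)| ^ 2 * |(discr K : ℝ)| := by
    rw [← norm_pow, ← hemb, hdisc, hdet']
    have h3 : algebraMap ℚ ℂ ((P'.det : ℚ) ^ 2 * (discr K : ℚ)) =
        ((P'.det : ℤ) : ℂ) ^ 2 * ((discr K : ℤ) : ℂ) := by
      rw [map_mul, map_pow]
      simp
    rw [h3, norm_mul, norm_pow, Complex.norm_intCast, Complex.norm_intCast]
  rw [hfin]
  have h4 : (1 : ℝ) ≤ |(P'.det : ℝ)| := by
    rw [← Int.cast_abs]
    exact_mod_cast Int.one_le_abs hP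
  have h5 : (1 : ℝ) ≤ |(P'.det : ℝ)| ^ 2 := one_le_pow₀ h4
  nlinarith [abs_nonneg (discr K : ℝ)]

end Pool.Agent.LibRC21
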