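import Pool.Agent.LibRC21.R3a
import Pool.Agent.LibRC21.R3b

/-! [RC21 R3c] The discriminant of the cubic field (SHORT/MEDIUM; template ST91_MO1.lean in the team-store, theorem `discr_cubic`).

PLAN. As `discr_cubic` (team-store ST91_MO1.lean): `e : Fin 3 ≃ (K →+* ℂ)`, the `e i ω` are different roots `a, b, c` of the cubic, so `a + b + c = 0` and
`((b - a)(c - a)(c - b))^2 = -108 (y^2 - x^3)` (copy). `disc_basis` for the family `![1, ω, β]`, `β = (ω^2 + r ω - 2 r^2)/M` (`beta_int`,
`isIntegral_one`, `ω` integral: root of a monic polynomial): the determinant (`Matrix.det_fin_three`, `map_div₀`, `map_natCast`) is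
Vandermonde `/ M`, so nonzero. Multiply by `M^2`. -/

set_option autoImplicit false

open NumberField Polynomial

namespace Pool.Agent.LibRC21

private theorem r3c_deg (K : Type) [Field K] [NumberField K] (f : ℤ[X]) (hf : f.Monic)
    (hirr : Irreducible (f.map (Int.castRingHom ℚ))) (hd : Module.finrank ℚ K = f.natDegree)
    (ω : K) (hω : aeval ω f = 0) :
    IsIntegral ℤ ω ∧ (minpoly ℚ ω).natDegree = Module.finrank ℚ K := by
  refine ⟨⟨f, hf, by rwa [← aeval_def]⟩, ?_⟩
  have h1 : aeval ω (f.map (Int.castRingHom ℚ)) = 0 := by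
    have : (Int.castRingHom ℚ) = algebraMap ℤ ℚ := rfl
    rw [this, aeval_map_algebraMap, hω]
  rw [← minpoly.eq_of_irreducible_of_monic hirr h1 (hf.map _), hf.natDegree_map, hd]

private theorem r3c_inj (K : Type) [Field K] [NumberField K] (ω : K)
    (hdeg : (minpoly ℚ ω).natDegree = Module.finrank ℚ K) (n : ℕ) (e : Fin n ≃ (K →+* ℂ)) :
    Function.Injective (fun i => e i ω) := by
  set e' : Fin n ≃ (K →ₐ[ℚ] ℂ) := e.trans (RingHom.equivRatAlgHom K ℂ) with he'
  have htop := (Field.primitive_element_iff_minpoly_natDegree_eq ℚ ω).2 hdeg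
  have h := (Field.primitive_element_iff_algHom_eq_of_eval' ℚ ℂ
    (fun x => IsAlgClosed.splits _) ω).1 htop
  intro i j hij
  exact e'.injective (h (by simpa [he'] using hij))

theorem discr_transf (K : Type) [Field K] [NumberField K] (x y : ℤ)
    (hirr : Irreducible ((X ^ 3 - C (3 * x) * X + C (2 * y) : ℤ[X]).map (Int.castRingHom ℚ)))
    (hd : Module.finrank ℚ K = 3) (ω : K) (hω : ω ^ 3 - 3 * x * ω + 2 * y = 0)
    (M : ℕ) (hM : 0 < M) (r c d : ℤ) (hT : Tr x y M r c d) :
    (M : ℝ) ^ 2 * |(discr K : ℝ)| ≤ 108 * |((y ^ 2 - x ^ 3 : ℤ) : ℝ)| := by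
  have hmon : (X ^ 3 - C (3 * x) * X + C (2 * y) : ℤ[X]).Monic := by monicity!
  have hdegf : (X ^ 3 - C (3 * x) * X + C (2 * y) : ℤ[X]).natDegree = 3 := by compute_degree!
  have hω' : aeval ω (X ^ 3 - C (3 * x) * X + C (2 * y) : ℤ[X]) = 0 := by
    simp only [map_add, map_sub, map_mul, map_pow, aeval_X, map_ofNat, map_intCast, eq_intCast]
    linear_combination hω
  obtain ⟨h1, h2⟩ := r3c_deg K _ hmon hirr (by rw [hd, hdegf]) ω hω'
  have hcard : Fintype.card (K →+* ℂ) = 3 := by rw [NumberField.Embeddings.card, hd]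
  have e : Fin 3 ≃ (K →+* ℂ) := (Fintype.equivFinOfCardEq hcard).symm
  have hinj := r3c_inj K ω h2 3 e
  have hM0 : (M : ℂ) ≠ 0 := by exact_mod_cast hM.ne'
  have hroot : ∀ i, (e i ω) ^ 3 - 3 * (x : ℂ) * (e i ω) + 2 * (y : ℂ) = 0 := by
    intro i
    have := congrArg (e i) hω
    simp only [map_add, map_sub, map_mul, map_pow, map_ofNat, map_intCast, map_zero] at this
    exact this
  have hb : ∀ i, IsIntegral ℤ ((![1, ω, (ω ^ 2 + r * ω - 2 * r ^ 2) / M] : Fin 3 → K) i) := by
    intro i
    fin_cases i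
    · exact isIntegral_one
    · exact h1
    · exact beta_int K x y ω hω M hM r c d hT
  have hdetv : (Matrix.of fun i j => e i ((![1, ω, (ω ^ 2 + r * ω - 2 * r ^ 2) / M] : Fin 3 → K) j)).det =
      (e 1 ω - e 0 ω) * (e 2 ω - e 0 ω) * (e 2 ω - e 1 ω) / M := by
    rw [Matrix.det_fin_three]
    simp only [Matrix.of_apply, Matrix.cons_val_zero, Matrix.cons_val_one, Matrix.cons_val, map_one,
      map_div₀, map_natCast, map_sub, map_add, map_mul, map_pow, map_intCast, map_ofNat]
    field_simp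
    ring
  have hab : e 0 ω - e 1 ω ≠ 0 := fun h => by
    have := hinj (sub_eq_zero.1 h); exact absurd this (by decide)
  have hac : e 0 ω - e 2 ω ≠ 0 := fun h => by
    have := hinj (sub_eq_zero.1 h); exact absurd this (by decide)
  have hbc : e 1 ω - e 2 ω ≠ 0 := fun h => by
    have := hinj (sub_eq_zero.1 h); exact absurd this (by decide)
  have hle := disc_basis K 3 e _ hb (by
    rw [hdetv]
    refine div_ne_zero (mul_ne_zero (mul_ne_zero ?_ ?_) ?_) hM0
    · exact fun h => hab (by linear_combination -h)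
    · exact fun h => hac (by linear_combination -h)
    · exact fun h => hbc (by linear_combination -h))
  rw [hdetv] at hle
  have ra := hroot 0
  have rb := hroot 1
  have rc := hroot 2
  clear hdetv hb hroot hinj
  generalize e 0 ω = a at *
  generalize e 1 ω = b at *
  generalize e 2 ω = c' at *
  have s1 : a ^ 2 + a * b + b ^ 2 - 3 * (x : ℂ) = 0 := by
    apply mul_left_cancel₀ hab
    linear_combination ra - rb
  have s2 : a ^ 2 + a * c' + c' ^ 2 - 3 * (x : ℂ) = 0 := by
    apply mul_left_cancel₀ hac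
    linear_combination ra - rc
  have s3 : a + b + c' = 0 := by
    apply mul_left_cancel₀ hbc
    linear_combination s1 - s2
  have hc : c' = -(a + b) := by linear_combination s3
  have hx : (x : ℂ) = (a ^ 2 + a * b + b ^ 2) / 3 := by linear_combination -(1 / 3) * s1
  have hy : (y : ℂ) = a * b * (a + b) / 2 := by
    rw [hx] at ra
    linear_combination (1 / 2) * ra
  have key : ((b - a) * (c' - a) * (c' - b)) ^ 2 = -108 * (((y ^ 2 - x ^ 3 : ℤ)) : ℂ) := by
    push_cast
    rw [hc, hx, hy]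
    ring
  rw [← norm_pow, div_pow, key, norm_div, norm_mul, Complex.norm_intCast, norm_pow, Complex.norm_natCast] at hle
  have hMr : (0 : ℝ) < (M : ℝ) ^ 2 := by positivity
  rw [le_div_iff₀ hMr] at hle
  calc (M : ℝ) ^ 2 * |(discr K : ℝ)| = |(discr K : ℝ)| * (M : ℝ) ^ 2 := by ring
    _ ≤ _ := hle
    _ = _ := by norm_num

end Pool.Agent.LibRC21
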