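import Pool.Agent.LibRC21.R1
import Pool.Agent.LibRC21.R2
import Pool.Agent.LibRC21.R3c
import Pool.Agent.LibRC21.R4
import Pool.Agent.LibRC21.LI

/-! [RC21 R5] Assembly (MEDIUM; all imported statements may be cited).

PLAN. `k = y^2 - x^3`, `L = log (|k| + 2) ≥ log 3 > 1`, `D = rcD x k ≥ 1` (product of powers of primes). If `x = 0` the left side is `0`. `scale`: `s, x1, y1`,
`k = s^6 k1`, `log |x| = 2 log s + log |x1|`, `6 log s ≤ log |k| ≤ L`, `|k1| ≤ |k|`. If `|x1| < C0 |k1|^3`: `log |x1| ≤ log C0 + 3 L`.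
Otherwise `transf` gives `M, r, c, d`, `Core` gives `K, ω`, `discr_transf`: `M^2 |discr K| ≤ 108 |k1| ≤ 108 D M^2`, so `|discr K| ≤ 108 D` (and `|discr K| ≥ 1`:
`NumberField.discr_ne_zero`). `1 + log (108 |k1|) ≤ 7 L` (`log 108 < 5`). Put `X = 3 + log |x1| ≥ 1` (`|x1| ≥ 1`), `A = c √D L` with a large constant
`c ≥ 3`; the argument of the logarithm is `≤ 324 D 7 L X ≤ (A X)^3` (`D L ≤ (√D L)^2`, `A ≥ 3`), so `X ≤ A log (A X)^κ`, and `log_iter`:
`X ≤ C (A (log A)^κ)`; `log A ≤ c' log (D L + 2)` (`√D L ≤ D L`, `log (D L + 2) ≥ log 3 > 1`). -/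

set_option autoImplicit false

open NumberField

namespace Pool.Agent.LibRC21

private theorem r5_real (C1 : ℝ) (hC1 : 0 < C1) (κ : ℕ) : ∃ C2 : ℝ, 0 < C2 ∧ ∀ D L u e W : ℝ,
    1 ≤ D → 1 ≤ L → 0 ≤ u → 1 ≤ e → e ≤ 108 * D → 1 ≤ W → W ≤ 7 * L →
    u ≤ C1 * (√e * W * Real.log (3 * e * W * (3 + u)) ^ κ) →
    u ≤ C2 * (√D * L * Real.log (D * L + 2) ^ κ) := by
  obtain ⟨C', hC', hit⟩ := log_iter κ
  set c : ℝ := 14 + (3 + 77 * C1) * 3 ^ κ with hc
  have hc14 : 14 ≤ c := by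
    have : 0 ≤ (3 + 77 * C1) * 3 ^ κ := by positivity
    rw [hc]; linarith
  have hlc : 0 ≤ Real.log c := Real.log_nonneg (by linarith)
  refine ⟨C' * (c * (Real.log c + 1) ^ κ), by positivity, ?_⟩
  intro D L u e W hD hL hu he heD hW hWL h
  have hD0 : 0 < D := by linarith
  have hL0 : 0 < L := by linarith
  have hsD : 1 ≤ √D := by
    rw [Real.one_le_sqrt]; exact hD
  have hsD2 : √D ^ 2 = D := Real.sq_sqrt hD0.le
  set S : ℝ := √D * L with hS
  have hS1 : 1 ≤ S := one_le_mul_of_one_le_of_one_le hsD hL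
  have hDLS : D * L ≤ S ^ 2 := by
    have h1 : S ^ 2 = D * L * L := by rw [hS, mul_pow, hsD2]; ring
    rw [h1]
    exact le_mul_of_one_le_right (by positivity) hL
  set A : ℝ := c * S with hA
  have hA14 : 14 ≤ A := by rw [hA]; nlinarith
  set X : ℝ := 3 + u with hX
  have hX3 : 3 ≤ X := by rw [hX]; linarith
  have hAX : 3 ≤ A * X := by nlinarith
  have hlAX : 1 ≤ Real.log (A * X) := one_le_log hAX
  have hse : √e ≤ 11 * √D := by
    rw [Real.sqrt_le_left (by positivity)]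
    rw [mul_pow, hsD2]
    linarith
  have harg : 3 * e * W * X ≤ (A * X) ^ 3 := by
    have h1 : 3 * e * W * X ≤ 3 * (108 * D) * (7 * L) * X := by gcongr
    have h2 : 3 * (108 * D) * (7 * L) * X = 2268 * (D * L) * X := by ring
    have h3 : 2268 * (D * L) * X ≤ 2268 * S ^ 2 * X := by gcongr
    have h4 : 2268 * S ^ 2 * X ≤ c ^ 3 * S ^ 3 * X ^ 3 := by
      have h5 : (2268 : ℝ) ≤ c ^ 3 := by
        have : (14 : ℝ) ^ 3 ≤ c ^ 3 := by gcongr
        linarith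
      have h6 : S ^ 2 ≤ S ^ 3 := pow_le_pow_right₀ hS1 (by norm_num)
      have h7 : X ≤ X ^ 3 := by
        calc X = X ^ 1 := by ring
          _ ≤ X ^ 3 := pow_le_pow_right₀ (by linarith) (by norm_num)
      gcongr
    have h8 : (A * X) ^ 3 = c ^ 3 * S ^ 3 * X ^ 3 := by rw [hA]; ring
    rw [h8]; linarith
  have hargp : 1 ≤ 3 * e * W * X := by
    have h1 : 1 ≤ e * W := one_le_mul_of_one_le_of_one_le he hW
    have h2 : 1 ≤ e * W * X := one_le_mul_of_one_le_of_one_le h1 (by linarith)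
    nlinarith
  have hlog : Real.log (3 * e * W * X) ≤ 3 * Real.log (A * X) := by
    have h1 := Real.log_le_log (by linarith) harg
    rw [Real.log_pow] at h1
    exact_mod_cast h1
  have hlog0 : 0 ≤ Real.log (3 * e * W * X) := Real.log_nonneg hargp
  have hu2 : u ≤ 77 * C1 * 3 ^ κ * (S * Real.log (A * X) ^ κ) := by
    calc u ≤ C1 * (√e * W * Real.log (3 * e * W * X) ^ κ) := h
      _ ≤ C1 * (11 * √D * (7 * L) * (3 * Real.log (A * X)) ^ κ) := by gcongr
      _ = _ := by rw [mul_pow, hS]; ring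
  have hSl : 1 ≤ S * Real.log (A * X) ^ κ :=
    one_le_mul_of_one_le_of_one_le hS1 (one_le_pow₀ hlAX)
  have hX2 : X ≤ A * Real.log (A * X) ^ κ := by
    have h3 : (1 : ℝ) ≤ 3 ^ κ := one_le_pow₀ (by norm_num)
    have h4 : 3 ≤ 3 * 3 ^ κ * (S * Real.log (A * X) ^ κ) := by
      have : 3 ≤ 3 * (3 : ℝ) ^ κ := by linarith
      calc (3 : ℝ) = 3 * 1 := by ring
        _ ≤ (3 * 3 ^ κ) * (S * Real.log (A * X) ^ κ) := by gcongr
    have h5 : X ≤ (3 + 77 * C1) * 3 ^ κ * (S * Real.log (A * X) ^ κ) := by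
      rw [hX]; linarith
    calc X ≤ (3 + 77 * C1) * 3 ^ κ * (S * Real.log (A * X) ^ κ) := h5
      _ ≤ c * (S * Real.log (A * X) ^ κ) := by
        apply mul_le_mul_of_nonneg_right _ (by linarith)
        rw [hc]; linarith
      _ = _ := by rw [hA]; ring
  have hfin := hit A X (by linarith) (by linarith) hX2
  have hDL1 : 1 ≤ D * L := one_le_mul_of_one_le_of_one_le hD hL
  have hlDL : 1 ≤ Real.log (D * L + 2) := one_le_log (by linarith)
  have hSle : S ≤ D * L + 2 := by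
    have h1 : √D ≤ D := by
      calc √D = √D * 1 := by ring
        _ ≤ √D * √D := by gcongr
        _ = D := Real.mul_self_sqrt hD0.le
    have h2 : S ≤ D * L := by rw [hS]; gcongr
    linarith
  have hlA : Real.log A ≤ (Real.log c + 1) * Real.log (D * L + 2) := by
    rw [hA, Real.log_mul (by linarith) (by linarith)]
    have h1 := Real.log_le_log (by linarith) hSle
    have h2 : Real.log c ≤ Real.log c * Real.log (D * L + 2) := le_mul_of_one_le_right hlc hlDL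
    linarith
  have hlA0 : 0 ≤ Real.log A := Real.log_nonneg (by linarith)
  calc u ≤ X := by rw [hX]; linarith
    _ ≤ C' * (A * Real.log A ^ κ) := hfin
    _ ≤ C' * (A * ((Real.log c + 1) * Real.log (D * L + 2)) ^ κ) := by gcongr
    _ = _ := by rw [hA, mul_pow]; ring

private theorem r5_rcD (x k : ℤ) : 1 ≤ rcD x k := by
  unfold rcD
  apply Finset.one_le_prod'
  intro p hp
  exact Nat.one_le_pow _ _ (Nat.prime_of_mem_primeFactors hp).pos

private theorem r5_intlog (n : ℤ) (hn : n ≠ 0) : (1 : ℝ) ≤ |(n : ℝ)| := by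
  rw [← Int.cast_abs]
  exact_mod_cast Int.one_le_abs hn

theorem assembly (hcore : Core) : ∃ C : ℝ, 0 < C ∧ ∃ κ : ℕ, ∀ x y : ℤ, y ^ 2 - x ^ 3 ≠ 0 →
    Real.log |(x : ℝ)| ≤ C * √(rcD x (y ^ 2 - x ^ 3) : ℝ) * Real.log (|((y ^ 2 - x ^ 3 : ℤ) : ℝ)| + 2) *
      Real.log ((rcD x (y ^ 2 - x ^ 3) : ℝ) * Real.log (|((y ^ 2 - x ^ 3 : ℤ) : ℝ)| + 2) + 2) ^ κ := by
  obtain ⟨C0, C1, hC0, hC1, κ, hcore⟩ := hcore
  obtain ⟨C2, hC2, hreal⟩ := r5_real C1 hC1 κ
  have hl0 : 0 ≤ Real.log C0 := Real.log_nonneg hC0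
  refine ⟨Real.log C0 + 4 + C2, by positivity, κ, ?_⟩
  intro x y hk
  set k : ℤ := y ^ 2 - x ^ 3 with hkdef
  set D : ℝ := (rcD x k : ℝ) with hD
  set L : ℝ := Real.log (|(k : ℝ)| + 2) with hL
  have hD1 : 1 ≤ D := by rw [hD]; exact_mod_cast r5_rcD x k
  have hk1 : (1 : ℝ) ≤ |(k : ℝ)| := r5_intlog k hk
  have hL1 : 1 ≤ L := one_le_log (by linarith)
  have hDL1 : 1 ≤ D * L := one_le_mul_of_one_le_of_one_le hD1 hL1
  have hlDL : 1 ≤ Real.log (D * L + 2) := one_le_log (by linarith)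
  have hP1 : 1 ≤ Real.log (D * L + 2) ^ κ := one_le_pow₀ hlDL
  have hsD : 1 ≤ √D := by rw [Real.one_le_sqrt]; exact hD1
  have hQ : L ≤ √D * L * Real.log (D * L + 2) ^ κ := by
    calc L = 1 * L * 1 := by ring
      _ ≤ √D * L * Real.log (D * L + 2) ^ κ := by gcongr
  have hQ0 : 0 ≤ √D * L * Real.log (D * L + 2) ^ κ := by linarith
  have hgoal : ∀ v : ℝ, v ≤ (Real.log C0 + 4) * L + C2 * (√D * L * Real.log (D * L + 2) ^ κ) →
      v ≤ (Real.log C0 + 4 + C2) * √D * L * Real.log (D * L + 2) ^ κ := by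
    intro v hv
    have h1 : (Real.log C0 + 4) * L ≤ (Real.log C0 + 4) * (√D * L * Real.log (D * L + 2) ^ κ) := by
      gcongr
    calc v ≤ _ := hv
      _ ≤ (Real.log C0 + 4) * (√D * L * Real.log (D * L + 2) ^ κ) +
          C2 * (√D * L * Real.log (D * L + 2) ^ κ) := by linarith
      _ = _ := by ring
  apply hgoal
  by_cases hx0 : x = 0
  · rw [hx0]
    simp only [Int.cast_zero, abs_zero, Real.log_zero]
    positivity
  obtain ⟨s, x1, y1, hs, hx, hy, hk1ne, hmin, hrc⟩ := scale x y hk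
  set k1 : ℤ := y1 ^ 2 - x1 ^ 3 with hk1def
  have hx1 : x1 ≠ 0 := by
    intro h0; apply hx0; rw [hx, h0]; ring
  have hx1' : (1 : ℝ) ≤ |(x1 : ℝ)| := r5_intlog x1 hx1
  have hk1' : (1 : ℝ) ≤ |(k1 : ℝ)| := r5_intlog k1 hk1ne
  have hs1 : (1 : ℝ) ≤ s := by exact_mod_cast hs
  have hkk : k = (s : ℤ) ^ 6 * k1 := by rw [hkdef, hk1def, hx, hy]; ring
  have hkkr : |(k : ℝ)| = (s : ℝ) ^ 6 * |(k1 : ℝ)| := by
    rw [hkk]; push_cast
    rw [abs_mul, abs_of_nonneg (by positivity : (0 : ℝ) ≤ (s : ℝ) ^ 6)]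
  have hlk : Real.log |(k : ℝ)| = 6 * Real.log s + Real.log |(k1 : ℝ)| := by
    rw [hkkr, Real.log_mul (by positivity) (by linarith), Real.log_pow]
    norm_num
  have hlkL : Real.log |(k : ℝ)| ≤ L := Real.log_le_log (by linarith) (by linarith)
  have hls : 0 ≤ Real.log (s : ℝ) := Real.log_nonneg hs1
  have hlk1 : 0 ≤ Real.log |(k1 : ℝ)| := Real.log_nonneg hk1'
  have hlxx : Real.log |(x : ℝ)| = 2 * Real.log s + Real.log |(x1 : ℝ)| := by
    rw [hx]; push_cast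
    rw [abs_mul, abs_of_nonneg (by positivity : (0 : ℝ) ≤ (s : ℝ) ^ 2),
      Real.log_mul (by positivity) (by linarith), Real.log_pow]
    norm_num
  have hlx1 : 0 ≤ Real.log |(x1 : ℝ)| := Real.log_nonneg hx1'
  rcases lt_or_ge |(x1 : ℝ)| (C0 * |(k1 : ℝ)| ^ 3) with hlt | hge
  · have h1 := Real.log_le_log (by linarith) hlt.le
    rw [Real.log_mul (by linarith) (by positivity), Real.log_pow] at h1
    have h2 : Real.log C0 ≤ Real.log C0 * L := le_mul_of_one_le_right hl0 hL1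
    have h3 : 0 ≤ C2 * (√D * L * Real.log (D * L + 2) ^ κ) := mul_nonneg hC2.le hQ0
    push_cast at h1
    rw [hlxx]
    nlinarith
  · obtain ⟨K, _, _, ω, hfin, hirr, hω, hbound⟩ := hcore x1 y1 hk1ne hge
    obtain ⟨M, r, c, d, hM, hT, hkM⟩ := transf x1 y1 hk1ne hmin
    have hdt := discr_transf K x1 y1 hirr hfin ω hω M hM r c d hT
    have hMr : (0 : ℝ) < (M : ℝ) ^ 2 := by
      have : (0 : ℝ) < M := by exact_mod_cast hM
      positivity
    have hkM' : |(k1 : ℝ)| ≤ D * (M : ℝ) ^ 2 := by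
      have h1 : k1.natAbs ≤ rcD x k * M ^ 2 := hkM.trans (Nat.mul_le_mul_right _ hrc)
      have h2 : (k1.natAbs : ℝ) ≤ (rcD x k : ℝ) * (M : ℝ) ^ 2 := by exact_mod_cast h1
      rwa [Nat.cast_natAbs, Int.cast_abs] at h2
    have hdisc : |(discr K : ℝ)| ≤ 108 * D := by
      have h1 : (M : ℝ) ^ 2 * |(discr K : ℝ)| ≤ (M : ℝ) ^ 2 * (108 * D) := by
        calc (M : ℝ) ^ 2 * |(discr K : ℝ)| ≤ 108 * |(k1 : ℝ)| := hdt
          _ ≤ 108 * (D * (M : ℝ) ^ 2) := by gcongr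
          _ = _ := by ring
      exact le_of_mul_le_mul_left h1 hMr
    have hdisc1 : (1 : ℝ) ≤ |(discr K : ℝ)| := r5_intlog _ (NumberField.discr_ne_zero K)
    have hlk1L : Real.log |(k1 : ℝ)| ≤ L := by linarith
    have h108 : Real.log 108 ≤ 5 := by
      rw [Real.log_le_iff_le_exp (by norm_num)]
      have h1 : (2.7 : ℝ) ^ 5 ≤ Real.exp 1 ^ 5 := by
        gcongr
        exact (by norm_num : (2.7 : ℝ) ≤ 2.7182818283).trans Real.exp_one_gt_d9.le
      have h2 : Real.exp 1 ^ 5 = Real.exp 5 := by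
        rw [← Real.exp_nat_mul]; norm_num
      rw [← h2]
      refine le_trans ?_ h1
      norm_num
    have h108' : 0 ≤ Real.log 108 := Real.log_nonneg (by norm_num)
    have hW : Real.log (108 * |(k1 : ℝ)|) = Real.log 108 + Real.log |(k1 : ℝ)| :=
      Real.log_mul (by norm_num) (by linarith)
    have hres := hreal D L (Real.log |(x1 : ℝ)|) |(discr K : ℝ)| (1 + Real.log (108 * |(k1 : ℝ)|))
      hD1 hL1 hlx1 hdisc1 hdisc (by rw [hW]; linarith) (by rw [hW]; linarith) hbound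
    rw [hlxx]
    have h4 : 0 ≤ Real.log C0 * L := by positivity
    linarith

end Pool.Agent.LibRC21
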