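import Pool.Agent.LibST91T.TX7
import Pool.Agent.LibRC21.R4c
import Pool.Agent.LibRC21.R5

/-! [RC21 R6] The final statement: both coordinates, `D ∣ k`, and the bound in terms of `k` alone. -/

set_option autoImplicit false

namespace Pool.Agent.LibRC21

theorem rcD_dvd (x y : ℤ) (h : y ^ 2 - x ^ 3 ≠ 0) :
    rcD x (y ^ 2 - x ^ 3) ∣ (y ^ 2 - x ^ 3).natAbs := by
  set k : ℤ := y ^ 2 - x ^ 3 with hk
  have hn : k.natAbs ≠ 0 := Int.natAbs_ne_zero.2 h
  have h1 : k.natAbs = ∏ p ∈ k.natAbs.primeFactors, p ^ k.natAbs.factorization p := by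
    conv_lhs => rw [← Nat.prod_factorization_pow_eq_self hn]
    rfl
  unfold rcD
  conv_rhs => rw [h1]
  refine Finset.prod_dvd_prod_of_dvd _ _ fun p hp => ?_
  have hpp : p.Prime := Nat.prime_of_mem_primeFactors hp
  apply pow_dvd_pow
  split_ifs with hx
  · rw [← hpp.pow_dvd_iff_le_factorization hn]
    rw [← Int.natCast_dvd]
    have hpk : (p : ℤ) ∣ k := Int.natCast_dvd.2 (Nat.dvd_of_mem_primeFactors hp)
    have hy2 : (p : ℤ) ∣ y ^ 2 := by
      have h2 : y ^ 2 = k + x ^ 3 := by rw [hk]; ring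
      rw [h2]
      exact dvd_add hpk (dvd_pow hx (by norm_num))
    have hy : (p : ℤ) ∣ y := Int.Prime.dvd_pow' hpp hy2
    obtain ⟨a, rfl⟩ := hx
    obtain ⟨b, rfl⟩ := hy
    refine ⟨b ^ 2 - p * a ^ 3, ?_⟩
    rw [hk]
    push_cast
    ring
  · exact Nat.mod_le _ _

theorem final : ∃ C : ℝ, 0 < C ∧ ∃ κ : ℕ, ∀ x y k : ℤ, y ^ 2 = x ^ 3 + k → k ≠ 0 → ∀ D : ℕ,
    D = ∏ p ∈ k.natAbs.primeFactors,
      p ^ (if (p : ℤ) ∣ x then 2 else k.natAbs.factorization p % 2) →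
    D ∣ k.natAbs ∧ Real.log (max |(x : ℝ)| |(y : ℝ)|) ≤ C * √(D : ℝ) * Real.log (|(k : ℝ)| + 2) *
      Real.log ((D : ℝ) * Real.log (|(k : ℝ)| + 2) + 2) ^ κ := by
  obtain ⟨C, hC, κ, hA⟩ := assembly core
  refine ⟨2 * C + 2, by linarith, κ, fun x y k hyk hk0 D hD => ?_⟩
  have hkk : y ^ 2 - x ^ 3 = k := by rw [hyk]; ring
  have hdv := rcD_dvd x y (by rw [hkk]; exact hk0)
  have hx := hA x y (by rw [hkk]; exact hk0)
  rw [hkk] at hdv hx
  have hD' : rcD x k = D := hD.symm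
  rw [hD'] at hdv hx
  refine ⟨hdv, ?_⟩
  set n : ℝ := |(k : ℝ)| with hn
  have hn1 : 1 ≤ n := by
    rw [hn, ← Int.cast_abs]
    exact_mod_cast Int.one_le_abs hk0
  have hL1 : 1 ≤ Real.log (n + 2) := one_le_log (by linarith)
  have hD1 : (1 : ℝ) ≤ D := by
    have : D ≠ 0 := by
      rintro rfl
      exact hk0 (Int.natAbs_eq_zero.1 (Nat.eq_zero_of_zero_dvd hdv))
    exact_mod_cast Nat.one_le_iff_ne_zero.2 this
  have hsD : 1 ≤ √(D : ℝ) := Real.one_le_sqrt.2 hD1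
  have hP1 : 1 ≤ Real.log ((D : ℝ) * Real.log (n + 2) + 2) ^ κ := by
    apply one_le_pow₀
    apply one_le_log
    nlinarith
  set L : ℝ := Real.log (n + 2) with hL
  set P : ℝ := Real.log ((D : ℝ) * L + 2) ^ κ with hP
  set S : ℝ := √(D : ℝ) * L * P with hS
  have hSL : L ≤ S := by
    have h1 : L ≤ √(D : ℝ) * L := by nlinarith
    have h2 : √(D : ℝ) * L ≤ √(D : ℝ) * L * P := le_mul_of_one_le_right (by positivity) hP1
    rw [hS]
    linarith
  have hx' : Real.log |(x : ℝ)| ≤ C * S := by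
    refine hx.trans (le_of_eq ?_)
    rw [hS]
    ring
  have hS0 : 0 ≤ S := by linarith
  have hgoal : (2 * C + 2) * √(D : ℝ) * L * P = (2 * C + 2) * S := by
    rw [hS]; ring
  rw [hgoal]
  have hlx0 : Real.log (max 1 |(x : ℝ)|) ≤ C * S := by
    rcases le_total |(x : ℝ)| 1 with h1 | h1
    · rw [max_eq_left h1, Real.log_one]
      positivity
    · rw [max_eq_right h1]
      exact hx'
  set m : ℝ := max 1 |(x : ℝ)| with hm
  have hm1 : 1 ≤ m := le_max_left _ _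
  have hm2 : |(x : ℝ)| ≤ m := le_max_right _ _
  have hy2 : |(y : ℝ)| ^ 2 ≤ (n + 2) * m ^ 3 := by
    have h1 : ((y : ℝ)) ^ 2 = (x : ℝ) ^ 3 + (k : ℝ) := by exact_mod_cast hyk
    rw [sq_abs, h1]
    have h2 : (k : ℝ) ≤ n := le_abs_self _
    have h3 : (x : ℝ) ^ 3 ≤ |(x : ℝ)| ^ 3 := by
      rw [← abs_pow]
      exact le_abs_self _
    have h4 : |(x : ℝ)| ^ 3 ≤ m ^ 3 := by gcongr
    have h5 : 1 ≤ m ^ 3 := one_le_pow₀ hm1
    nlinarith
  have hy : Real.log (max 1 |(y : ℝ)|) ≤ (2 * C + 1) * S := by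
    rcases le_total |(y : ℝ)| 1 with h1 | h1
    · rw [max_eq_left h1, Real.log_one]
      positivity
    · rw [max_eq_right h1]
      have h2 := Real.log_le_log (by positivity) hy2
      rw [Real.log_pow, Real.log_mul (by positivity) (by positivity), Real.log_pow] at h2
      push_cast at h2
      have h3 : 3 * Real.log m ≤ 3 * (C * S) := by linarith
      have h4 : 0 ≤ C * S := by positivity
      nlinarith
  rcases le_total |(x : ℝ)| |(y : ℝ)| with h1 | h1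
  · rw [max_eq_right h1]
    rcases eq_or_ne (y : ℝ) 0 with h2 | h2
    · rw [h2, abs_zero, Real.log_zero]
      positivity
    · have h3 : Real.log |(y : ℝ)| ≤ Real.log (max 1 |(y : ℝ)|) :=
        Real.log_le_log (abs_pos.2 h2) (le_max_right _ _)
      nlinarith
  · rw [max_eq_left h1]
    nlinarith [mul_nonneg hC.le hS0]

theorem final2 : ∃ C : ℝ, 0 < C ∧ ∃ κ : ℕ, ∀ x y k : ℤ, y ^ 2 = x ^ 3 + k → k ≠ 0 →
    Real.log (max |(x : ℝ)| |(y : ℝ)|) ≤ C * √|(k : ℝ)| * Real.log (|(k : ℝ)| + 2) ^ κ ∧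
    ∀ D : ℕ, D = ∏ p ∈ k.natAbs.primeFactors,
        p ^ (if (p : ℤ) ∣ x then 2 else k.natAbs.factorization p % 2) →
      D ∣ k.natAbs ∧ Real.log (max |(x : ℝ)| |(y : ℝ)|) ≤ C * √(D : ℝ) *
        Real.log (|(k : ℝ)| + 2) * Real.log ((D : ℝ) * Real.log (|(k : ℝ)| + 2) + 2) ^ κ := by
  obtain ⟨C1, hC1, κ1, h1⟩ := Pool.Agent.LibST91.mordell_max (Pool.Agent.LibST91.main_X 3 1)
  obtain ⟨C2, hC2, κ2, h2⟩ := final
  refine ⟨C1 + C2, by linarith, κ1 + κ2, fun x y k hyk hk0 => ⟨?_, fun D hD => ?_⟩⟩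
  · have hkk : y ^ 2 - x ^ 3 = k := by rw [hyk]; ring
    have h3 := h1 x y (fun h => hk0 (by rw [← hkk, h, sub_self]))
    rw [hkk] at h3
    have hL1 : 1 ≤ Real.log (|(k : ℝ)| + 2) := one_le_log (by
      have : (1 : ℝ) ≤ |(k : ℝ)| := by
        rw [← Int.cast_abs]
        exact_mod_cast Int.one_le_abs hk0
      linarith)
    refine h3.trans ?_
    have h4 : Real.log (|(k : ℝ)| + 2) ^ κ1 ≤ Real.log (|(k : ℝ)| + 2) ^ (κ1 + κ2) :=
      pow_le_pow_right₀ hL1 (by omega)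
    have h5 : C1 ≤ C1 + C2 := by linarith
    gcongr
  · obtain ⟨hdv, h3⟩ := h2 x y k hyk hk0 D hD
    refine ⟨hdv, h3.trans ?_⟩
    have hk1 : (1 : ℝ) ≤ |(k : ℝ)| := by
      rw [← Int.cast_abs]
      exact_mod_cast Int.one_le_abs hk0
    have hL1 : 1 ≤ Real.log (|(k : ℝ)| + 2) := one_le_log (by linarith)
    have hD1 : (1 : ℝ) ≤ D := by
      have : D ≠ 0 := by
        rintro rfl
        exact hk0 (Int.natAbs_eq_zero.1 (Nat.eq_zero_of_zero_dvd hdv))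
      exact_mod_cast Nat.one_le_iff_ne_zero.2 this
    have hP1 : 1 ≤ Real.log ((D : ℝ) * Real.log (|(k : ℝ)| + 2) + 2) :=
      one_le_log (by nlinarith)
    have h4 : Real.log ((D : ℝ) * Real.log (|(k : ℝ)| + 2) + 2) ^ κ2 ≤
        Real.log ((D : ℝ) * Real.log (|(k : ℝ)| + 2) + 2) ^ (κ1 + κ2) :=
      pow_le_pow_right₀ hP1 (by omega)
    have h5 : C2 ≤ C1 + C2 := by linarith
    have h6 : 0 ≤ Real.log (|(k : ℝ)| + 2) := by linarith
    gcongr

end Pool.Agent.LibRC21
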