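import Mathlib

/-! # RC21: the discriminant of the cubic field attached to an integral point of a Mordell curve -/

set_option autoImplicit false

namespace Pool.Agent.LibRC21

/-- The product over the primes `p` dividing `k` of `p ^ 2` if `p` divides `x`, of `p` if `p` does not divide `x` and the
exponent of `p` in `k` is odd, and of `1` otherwise. -/
def rcD (x k : ℤ) : ℕ :=
  ∏ p ∈ k.natAbs.primeFactors, p ^ (if (p : ℤ) ∣ x then 2 else k.natAbs.factorization p % 2)

/-- No prime `p` has `p ^ 2 ∣ x` and `p ^ 3 ∣ y`. -/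
def Minl (x y : ℤ) : Prop := ∀ p : ℕ, p.Prime → ¬ ((p : ℤ) ^ 2 ∣ x ∧ (p : ℤ) ^ 3 ∣ y)

/-- The coefficients of the transformed form. -/
def Tr (x y : ℤ) (M : ℕ) (r c d : ℤ) : Prop :=
  (M : ℤ) * c = 3 * (r ^ 2 - x) ∧ (M : ℤ) ^ 2 * d = r ^ 3 - 3 * x * r + 2 * y

end Pool.Agent.LibRC21
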