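import Pool.Agent.LibRC21.Defs

/-! [RC21 R1] Removing the common factor `(s^2, s^3)` (SHORT/MEDIUM, ONLY MATHLIB).

PLAN. `step`: `k = y^2 - x^3 = p^6 k1`, `k1 = y1^2 - x1^3 ≠ 0`. `primeFactors k1 ⊆ primeFactors k` (`Nat.primeFactors_mono`, natAbs);
for `q` in `primeFactors k1`: if `q = p` the exponent on the left is `≤ 2` = the exponent on the right (`p ∣ p^2 x1`); if `q ≠ p`:
`q ∣ p^2 x1 ↔ q ∣ x1` (`Int.Prime` / `Nat.Prime` coprimality) and `factorization (p^6 k1) q = factorization k1 q`. All factors `p ^ _ ≥ 1`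
(`Finset.prod_le_prod_of_subset_of_one_le'` and `Finset.prod_le_prod'`).
`scale`: strong induction on `(y^2 - x^3).natAbs`: if `Minl x y` take `s = 1`; otherwise `step` with a prime `p` (`x = p^2 x1`, `y = p^3 y1`,
`(y1^2 - x1^3).natAbs < (y^2 - x^3).natAbs`). -/

set_option autoImplicit false

namespace Pool.Agent.LibRC21

theorem step (p : ℕ) (hp : p.Prime) (x1 y1 : ℤ) (h : y1 ^ 2 - x1 ^ 3 ≠ 0) :
    rcD x1 (y1 ^ 2 - x1 ^ 3) ≤ rcD ((p : ℤ) ^ 2 * x1) (((p : ℤ) ^ 3 * y1) ^ 2 - ((p : ℤ) ^ 2 * x1) ^ 3) := by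
  set k1 := y1 ^ 2 - x1 ^ 3 with hk1
  have hk : ((p : ℤ) ^ 3 * y1) ^ 2 - ((p : ℤ) ^ 2 * x1) ^ 3 = (p : ℤ) ^ 6 * k1 := by rw [hk1]; ring
  rw [hk]
  have hn : ((p : ℤ) ^ 6 * k1).natAbs = p ^ 6 * k1.natAbs := by
    rw [Int.natAbs_mul, Int.natAbs_pow, Int.natAbs_natCast]
  have hk0 : k1.natAbs ≠ 0 := Int.natAbs_ne_zero.mpr h
  have hp6 : p ^ 6 ≠ 0 := pow_ne_zero _ hp.ne_zero
  unfold rcD
  rw [hn]
  have hsub : k1.natAbs.primeFactors ⊆ (p ^ 6 * k1.natAbs).primeFactors :=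
    Nat.primeFactors_mono (Dvd.intro_left _ rfl) (mul_ne_zero hp6 hk0)
  refine le_trans (Finset.prod_le_prod' (f := fun q : ℕ => q ^ (if (q : ℤ) ∣ x1 then 2 else
    k1.natAbs.factorization q % 2)) (g := fun q : ℕ => q ^ (if (q : ℤ) ∣ (p : ℤ) ^ 2 * x1 then 2 else
    (p ^ 6 * k1.natAbs).factorization q % 2)) (fun q hq => ?_))
    (Finset.prod_le_prod_of_subset_of_one_le' hsub
      (fun q hq _ => Nat.one_le_pow _ _ (Nat.pos_of_mem_primeFactors hq)))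
  have hqp : q.Prime := Nat.prime_of_mem_primeFactors hq
  have hlt2 : k1.natAbs.factorization q % 2 < 2 := Nat.mod_lt _ (by norm_num)
  apply Nat.pow_le_pow_right hqp.pos
  by_cases h1 : (q : ℤ) ∣ x1
  · have h2 : (q : ℤ) ∣ (p : ℤ) ^ 2 * x1 := Dvd.dvd.mul_left h1 _
    rw [if_pos h1, if_pos h2]
  · rw [if_neg h1]
    by_cases h2 : (q : ℤ) ∣ (p : ℤ) ^ 2 * x1
    · rw [if_pos h2]; omega
    · rw [if_neg h2]
      have hne : q ≠ p := by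
        rintro rfl
        exact h2 (Dvd.dvd.mul_right (dvd_pow_self _ (by norm_num)) _)
      rw [Nat.factorization_mul hp6 hk0, Finsupp.add_apply, Nat.factorization_pow, Finsupp.smul_apply,
        Nat.Prime.factorization hp, Finsupp.single_eq_of_ne hne]
      simp

theorem scale (x y : ℤ) (h : y ^ 2 - x ^ 3 ≠ 0) : ∃ (s : ℕ) (x1 y1 : ℤ), 0 < s ∧ x = (s : ℤ) ^ 2 * x1 ∧
    y = (s : ℤ) ^ 3 * y1 ∧ y1 ^ 2 - x1 ^ 3 ≠ 0 ∧ Minl x1 y1 ∧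
    rcD x1 (y1 ^ 2 - x1 ^ 3) ≤ rcD x (y ^ 2 - x ^ 3) := by
  induction' hN : (y ^ 2 - x ^ 3).natAbs using Nat.strong_induction_on with N ih generalizing x y
  by_cases hm : Minl x y
  · exact ⟨1, x, y, one_pos, by simp, by simp, h, hm, le_rfl⟩
  · unfold Minl at hm
    push Not at hm
    obtain ⟨p, hp, ⟨x1, hx⟩, ⟨y1, hy⟩⟩ := hm
    have hk : y ^ 2 - x ^ 3 = (p : ℤ) ^ 6 * (y1 ^ 2 - x1 ^ 3) := by rw [hx, hy]; ring
    have h1 : y1 ^ 2 - x1 ^ 3 ≠ 0 := by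
      intro h0
      apply h
      rw [hk, h0, mul_zero]
    have hlt : (y1 ^ 2 - x1 ^ 3).natAbs < N := by
      rw [← hN, hk, Int.natAbs_mul, Int.natAbs_pow, Int.natAbs_natCast]
      have h3 : 0 < (y1 ^ 2 - x1 ^ 3).natAbs := Int.natAbs_pos.mpr h1
      have h4 : 1 < p ^ 6 := Nat.one_lt_pow (by norm_num) hp.one_lt
      calc (y1 ^ 2 - x1 ^ 3).natAbs = 1 * (y1 ^ 2 - x1 ^ 3).natAbs := (one_mul _).symm
        _ < p ^ 6 * (y1 ^ 2 - x1 ^ 3).natAbs := Nat.mul_lt_mul_of_pos_right h4 h3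
    obtain ⟨s, x2, y2, hs, e1, e2, h2, hm2, hle⟩ := ih _ hlt x1 y1 h1 rfl
    refine ⟨p * s, x2, y2, mul_pos hp.pos hs, ?_, ?_, h2, hm2, ?_⟩
    · rw [hx, e1]; push_cast; ring
    · rw [hy, e2]; push_cast; ring
    · rw [hx, hy]; exact hle.trans (step p hp x1 y1 h1)

end Pool.Agent.LibRC21
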