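import Pool.Agent.LibRC21.Defs

/-! [RC21 R3a] An integral element (SHORT/MEDIUM, ONLY MATHLIB).

PLAN. `β = (ω^2 + r ω - 2 r^2) / M` is a root of `X^3 + 2 c X^2 + (c^2 + b d) X + (b c d - M d^2)`, `b = 3 r`: with `α = ω - r` one has
`M β = α^2 + b α` (check: `α (α + 3 r) = (ω - r)(ω + 2 r)`), `α^3 + b α^2 + M c α + M^2 d = 0` (this is `ω^3 - 3 x ω + 2 y = 0`, by `Tr`), hence
`α β = - M d - c α` and `β^2 = - c β - d α - b d`; then `β^3 = ...`. All by `linear_combination` after clearing `M ≠ 0`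
(`mul_left_cancel₀`). `IsIntegral ℤ β`: `⟨monic polynomial, _, _⟩` (`Polynomial.monic_X_pow_add` or `monicity!`). -/

set_option autoImplicit false

open NumberField Polynomial

namespace Pool.Agent.LibRC21

theorem beta_int (K : Type) [Field K] [NumberField K] (x y : ℤ) (ω : K)
    (hω : ω ^ 3 - 3 * x * ω + 2 * y = 0) (M : ℕ) (hM : 0 < M) (r c d : ℤ) (hT : Tr x y M r c d) :
    IsIntegral ℤ ((ω ^ 2 + r * ω - 2 * r ^ 2) / M : K) := by
  obtain ⟨h1, h2⟩ := hT
  have hM0 : (M : K) ≠ 0 := by exact_mod_cast hM.ne'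
  have h1' : (M : K) * c = 3 * (r ^ 2 - x) := by
    have := congrArg (Int.cast : ℤ → K) h1
    push_cast at this
    exact this
  have h2' : (M : K) ^ 2 * d = r ^ 3 - 3 * x * r + 2 * y := by
    have := congrArg (Int.cast : ℤ → K) h2
    push_cast at this
    exact this
  set β : K := (ω ^ 2 + r * ω - 2 * r ^ 2) / M with hβ
  have hMβ : (M : K) * β = ω ^ 2 + r * ω - 2 * r ^ 2 := by
    rw [hβ]; field_simp
  -- α β = - c α - M d
  have hαβ : (ω - r) * β = - c * (ω - r) - M * d := by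
    apply mul_left_cancel₀ hM0
    linear_combination (ω - r) * hMβ + hω + (ω - r) * h1' + h2'
  have hββ : β ^ 2 = - c * β - d * (ω - r) - 3 * r * d := by
    apply mul_left_cancel₀ hM0
    linear_combination β * hMβ + (ω - r) * hαβ + 3 * r * hαβ + c * hMβ
  have hβ3 : β ^ 3 + 2 * c * β ^ 2 + (c ^ 2 + 3 * r * d) * β + (3 * r * c * d - M * d ^ 2) = 0 := by
    linear_combination β * hββ - d * hαβ + c * hββ
  refine ⟨X ^ 3 + (C (2 * c) * X ^ 2 + C (c ^ 2 + 3 * r * d) * X
    + C (3 * r * c * d - M * d ^ 2)), ?_, ?_⟩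
  · apply Polynomial.monic_X_pow_add
    compute_degree!
  · simp only [eval₂_add, eval₂_mul, eval₂_pow, eval₂_X, eval₂_C]
    simp only [algebraMap_int_eq, eq_intCast]
    push_cast
    linear_combination hβ3

end Pool.Agent.LibRC21
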